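import Pool.Agent.W896.CN.Rect
import Pool.Agent.W896.RK.Sat

/-!
# Circuits of small formal degree and formulas in conjunctive normal form
-/

set_option autoImplicit false

open Finset

namespace Pool.Agent.W896.CN

open Pool.Agent.H554R2.Sem Pool.Agent.H554R2.Cnf Pool.Agent.H554R2.Lin Pool.Agent.W896.RK
  Pool.Agent.W896.HP

variable {V : Type} {n ν : ℕ}

theorem dep {U : Circ V} {p : Fin n → V} (hp : Function.Injective p) (b : V → Bool)
    {e : Fin ν ⊕ Fin ν → Fin n} (he : Function.Injective e) {d : U.G → Fin ν ⊕ Fin ν → ℕ}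
    (hd : IsDeg U (fun i => p (e i)) d) {P : Piece U} {x y : Pt n} (h : P.True (fill p b x))
    (hxy : ∀ j, (∀ i, e i ≠ j) → x j = y j)
    (hz : ∀ i ∈ P.vars (fun i => p (e i)) d, x (e i) = y (e i)) : P.True (fill p b y) := by
  have hpe : Function.Injective (fun i => p (e i)) := hp.comp he
  have h1 : fill p b x = fill (fun i => p (e i)) (fill p b x) (fun i => x (e i)) := by
    funext v
    by_cases hv : ∃ i, p (e i) = v
    · obtain ⟨i, rfl⟩ := hv
      rw [fill_apply hp]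
      exact (fill_apply hpe _ (fun i => x (e i)) i).symm
    · push Not at hv
      exact (fill_other _ _ hv).symm
  have h2 : fill p b y = fill (fun i => p (e i)) (fill p b x) (fun i => y (e i)) := by
    funext v
    by_cases hv : ∃ i, p (e i) = v
    · obtain ⟨i, rfl⟩ := hv
      rw [fill_apply hp]
      exact (fill_apply hpe _ (fun i => y (e i)) i).symm
    · push Not at hv
      rw [fill_other _ _ hv]
      by_cases hw : ∃ j, p j = v
      · obtain ⟨j, rfl⟩ := hw
        rw [fill_apply hp, fill_apply hp]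
        exact (hxy j (fun i hi => hv i (by rw [hi]))).symm
      · push Not at hw
        rw [fill_other _ _ hw, fill_other _ _ hw]
  rw [h1] at h
  rw [h2]
  exact piece_dep hd h hz

open Classical in
/-- The inputs which satisfy the pieces of a valid family. -/
theorem theta_card {U : Circ V} {p : Fin n → V} (hp : Function.Injective p) (b : V → Bool)
    {e : Fin ν ⊕ Fin ν → Fin n} (he : Function.Injective e) {d : U.G → Fin ν ⊕ Fin ν → ℕ}
    (hd : IsDeg U (fun i => p (e i)) d) {a κ m ρ : ℕ} (haκ : 2 * (κ * a) ≤ ν) (hν : 1 ≤ ν)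
    {C : Finset (Pt n)} (hC : NoRect C ρ) (hU : ∀ x, U.Val (fill p b x) U.out → x ∈ C)
    {θ : Fin m → Option (Piece U)} (hθ : Valid U (fun i => p (e i)) d a κ θ) :
    (univ.filter (fun x : Pt n => ∀ j P, θ j = some P → P.True (fill p b x))).card *
      2 ^ (ν / 2 ^ (2 * κ + 1)) ≤ 2 ^ n * ρ := by
  obtain ⟨c, hc⟩ := exists_color (vrs (fun i => p (e i)) d θ) hθ.cnt hθ.card haκ
  obtain ⟨R, hR⟩ : ∃ R, R = univ.filter (fun i : Fin ν =>
    ∀ j, Sum.inl i ∈ vrs (fun i => p (e i)) d θ j → c j = true) := ⟨_, rfl⟩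
  obtain ⟨B, hB⟩ : ∃ B, B = univ.filter (fun i : Fin ν =>
    ∀ j, Sum.inr i ∈ vrs (fun i => p (e i)) d θ j → c j = false) := ⟨_, rfl⟩
  rw [← hR, ← hB] at hc
  have hRn : R.card ≤ ν := by simpa using card_le_univ R
  have hBn : B.card ≤ ν := by simpa using card_le_univ B
  have hR1 : ν / 2 ^ (2 * κ + 1) ≤ R.card := by
    have h1 : ν * ν ≤ (2 ^ (2 * κ + 1) * R.card) * ν := by
      calc ν * ν ≤ 2 ^ (2 * κ + 1) * (R.card * B.card) := hc
        _ = 2 ^ (2 * κ + 1) * R.card * B.card := by ring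
        _ ≤ _ := Nat.mul_le_mul_left _ hBn
    have h2 := Nat.le_of_mul_le_mul_right h1 (by omega)
    exact Nat.div_le_of_le_mul h2
  have hB1 : ν / 2 ^ (2 * κ + 1) ≤ B.card := by
    have h1 : ν * ν ≤ (2 ^ (2 * κ + 1) * B.card) * ν := by
      calc ν * ν ≤ 2 ^ (2 * κ + 1) * (R.card * B.card) := hc
        _ = 2 ^ (2 * κ + 1) * B.card * R.card := by ring
        _ ≤ _ := Nat.mul_le_mul_left _ hRn
    have h2 := Nat.le_of_mul_le_mul_right h1 (by omega)
    exact Nat.div_le_of_le_mul h2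
  have hvrs : ∀ j P, θ j = some P → vrs (fun i => p (e i)) d θ j =
      P.vars (fun i => p (e i)) d := by
    intro j P hj
    unfold vrs
    rw [hj]; rfl
  obtain ⟨A', hA'⟩ : ∃ A', A' = R.image (fun i => e (Sum.inl i)) := ⟨_, rfl⟩
  obtain ⟨B', hB'⟩ : ∃ B', B' = B.image (fun i => e (Sum.inr i)) := ⟨_, rfl⟩
  have hcA : A'.card = R.card := by
    rw [hA', card_image_of_injective _ (fun i j h => Sum.inl_injective (he h))]
  have hcB : B'.card = B.card := by
    rw [hB', card_image_of_injective _ (fun i j h => Sum.inr_injective (he h))]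
  have hdis : Disjoint A' B' := by
    rw [disjoint_left, hA', hB']
    intro j h1 h2
    rw [mem_image] at h1 h2
    obtain ⟨i, -, hi⟩ := h1
    obtain ⟨i', -, hi'⟩ := h2
    exact absurd (he (hi.trans hi'.symm)) (by simp)
  refine rect_count C _ ρ (ν / 2 ^ (2 * κ + 1)) A' B' hdis hC ?_ (by omega) (by omega)
  intro x hx y hy hxy
  rw [mem_filter] at hx hy
  apply hU
  apply hθ.cl.val
  intro P hP
  obtain ⟨j, hj⟩ := mem_plst.1 hP
  -- no variable of a red piece is blue, and vice versa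
  cases hcj : c j with
  | true =>
    refine dep hp b he hd (hx.2 j P hj) ?_ ?_
    · intro i hi
      unfold merge
      split_ifs with h1
      · rfl
      · refine hxy i h1 ?_
        rw [hB', mem_image]
        rintro ⟨i', -, hi'⟩
        exact hi _ hi'
    · intro i hi
      unfold merge
      split_ifs with h1
      · rfl
      · refine hxy _ h1 ?_
        rw [hB', mem_image]
        rintro ⟨i', hi', hii⟩
        have h2 := he hii
        subst h2
        rw [hB, mem_filter] at hi'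
        rw [hi'.2 j (by rw [hvrs j P hj]; exact hi)] at hcj
        exact Bool.noConfusion hcj
  | false =>
    refine dep hp b he hd (hy.2 j P hj) ?_ ?_
    · intro i hi
      unfold merge
      split_ifs with h1
      · rw [hA', mem_image] at h1
        obtain ⟨i', -, hi'⟩ := h1
        exact absurd hi' (hi _)
      · rfl
    · intro i hi
      unfold merge
      split_ifs with h1
      · rw [hA', mem_image] at h1
        obtain ⟨i', hi', hii⟩ := h1
        have h2 := he hii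
        subst h2
        rw [hR, mem_filter] at hi'
        rw [hi'.2 j (by rw [hvrs j P hj]; exact hi)] at hcj
        exact Bool.noConfusion hcj
      · rfl

/-- **Formulas in conjunctive normal form are hard for circuits of small formal degree.** -/
theorem cnf_degree (k : ℕ) : ∃ D : ℕ, 0 < D ∧ ∀ n ≥ D,
    ∃ F : Finset (Finset (Fin n × Bool)), F.card ≤ D * n ∧ (∀ c ∈ F, c.card ≤ D) ∧
      ∀ (V : Type) (p : Fin n → V), Function.Injective p → ∀ (b : V → Bool) (U : Circ V)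
        (d : U.G → Fin n → ℕ), IsDeg U p d → ∑ i, d U.out i ≤ k * n →
        (∀ x : Pt n, U.Val (fill p b x) U.out → Models F x) →
        Nat.card {x : Pt n // Models F x} ≤
          2 ^ (n / D) * Nat.card {x : Pt n // U.Val (fill p b x) U.out} →
        n ≤ D * (Nat.log 2 (Fintype.card U.G) + 1) := by
  classical
  obtain ⟨κ, hκ⟩ : ∃ κ, κ = 2 * (k + 1) := ⟨_, rfl⟩
  obtain ⟨Q, hQ⟩ : ∃ Q, Q = 2 ^ (2 * κ + 3) := ⟨_, rfl⟩
  obtain ⟨m, hm⟩ : ∃ m, m = 32 * κ ^ 2 + 1 := ⟨_, rfl⟩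
  have hQpos : 1 ≤ Q := by rw [hQ]; exact Nat.one_le_two_pow
  obtain ⟨D1, hD1, hcnf⟩ := exists_cnf Q (2 * Q) hQpos (by omega)
  obtain ⟨D, hD⟩ : ∃ D, D = D1 + 8 * κ + 2 * Q * (4 * m + 8) := ⟨_, rfl⟩
  have hQD : 8 * Q ≤ D := by
    rw [hD]; nlinarith
  refine ⟨D, by omega, fun n hn => ?_⟩
  obtain ⟨F, hF1, hF2, C, hC, hCc, hCR⟩ := hcnf n (by omega)
  refine ⟨F, hF1.trans (Nat.mul_le_mul_right _ (by omega)), fun c hc => (hF2 c hc).trans (by omega),
    ?_⟩
  intro V p hp b U d hd hk hU hl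
  obtain ⟨ν, hν⟩ : ∃ ν, ν = n / 4 := ⟨_, rfl⟩
  have hνκ : 2 * κ ≤ ν := by
    rw [hν, Nat.le_div_iff_mul_le (by norm_num)]
    omega
  have hκ1 : 1 ≤ κ := by omega
  -- the light variables
  obtain ⟨L, hL⟩ : ∃ L : Finset (Fin n), L = univ.filter (fun j => d U.out j ≤ κ) := ⟨_, rfl⟩
  have hLc : 2 * ν ≤ L.card := by
    have h1 : (univ.filter (fun j => ¬ d U.out j ≤ κ)).card * (κ + 1) ≤ k * n := by
      refine le_trans ?_ hk
      rw [← smul_eq_mul, ← sum_const]
      calc ∑ _j ∈ univ.filter (fun j => ¬ d U.out j ≤ κ), (κ + 1) ≤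
          ∑ j ∈ univ.filter (fun j => ¬ d U.out j ≤ κ), d U.out j := by
            apply sum_le_sum
            intro j hj
            have := (mem_filter.1 hj).2
            omega
        _ ≤ _ := sum_le_sum_of_subset (subset_univ _)
    have h2 : L.card + (univ.filter (fun j => ¬ d U.out j ≤ κ)).card = n := by
      rw [hL, card_filter_add_card_filter_not, card_univ, Fintype.card_fin]
    obtain ⟨X, hX⟩ : ∃ X, X = (univ.filter (fun j => ¬ d U.out j ≤ κ)).card := ⟨_, rfl⟩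
    rw [← hX] at h1 h2
    have h3 : 2 * X ≤ n := by
      have h4 : (2 * X) * (k + 1) ≤ n * (k + 1) := by
        calc (2 * X) * (k + 1) ≤ X * (κ + 1) := by rw [hκ]; nlinarith
          _ ≤ k * n := h1
          _ ≤ n * (k + 1) := by nlinarith
      exact Nat.le_of_mul_le_mul_right h4 (by omega)
    omega
  obtain ⟨e, he⟩ : ∃ e : Fin ν ⊕ Fin ν ↪ Fin n, ∀ i, e i ∈ L := by
    have h1 : Fintype.card (Fin ν ⊕ Fin ν) ≤ Fintype.card L := by
      rw [Fintype.card_sum, Fintype.card_fin, Fintype.card_coe]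
      omega
    obtain ⟨g⟩ := Function.Embedding.nonempty_of_card_le h1
    exact ⟨g.trans (Function.Embedding.subtype _), fun i => (g i).2⟩
  obtain ⟨a, ha⟩ : ∃ a, a = ν / (2 * κ) := ⟨_, rfl⟩
  have ha1 : 1 ≤ a := by
    rw [ha]
    exact (Nat.one_le_div_iff (by omega)).2 hνκ
  have haκ : 2 * κ * a ≤ ν := by rw [ha]; exact Nat.mul_div_le _ _
  have hna : ν < 2 * κ * (a + 1) := by rw [ha]; exact Nat.lt_mul_div_succ ν (by omega)
  have hde : IsDeg U (fun i => p (e i)) (fun g i => d g (e i)) :=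
    ⟨fun g v b' e' i hi => hd.1 g v b' e' (e i) hi, fun g a' b' e' i => hd.2.1 g a' b' e' (e i),
      fun g S a' e' ha' i => hd.2.2 g S a' e' ha' (e i)⟩
  have hκi : ∀ i, d U.out (e i) ≤ κ := by
    intro i
    have := he i
    rw [hL, mem_filter] at this
    exact this.2
  have hwt : wt (fun g i => d g (e i)) U.out ≤ 2 * ν * κ := by
    unfold wt
    calc ∑ i, d U.out (e i) ≤ ∑ _i : Fin ν ⊕ Fin ν, κ := sum_le_sum (fun i _ => hκi i)
      _ = 2 * ν * κ := by
          rw [sum_const, card_univ, Fintype.card_sum, Fintype.card_fin, smul_eq_mul]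
          ring
  have hmm : a + 4 * wt (fun g i => d g (e i)) U.out ≤ a * m := by
    have h1 : ν ≤ 4 * κ * a := by nlinarith
    calc a + 4 * wt (fun g i => d g (e i)) U.out ≤ a + 4 * (2 * ν * κ) := by omega
      _ = a + 8 * κ * ν := by ring
      _ ≤ a + 8 * κ * (4 * κ * a) := by gcongr
      _ = a * m := by rw [hm]; ring
  -- covering
  obtain ⟨Gs, hGs⟩ : ∃ Gs : Finset (Pt n), Gs = univ.filter (fun x => U.Val (fill p b x) U.out) :=
    ⟨_, rfl⟩
  obtain ⟨S, hS⟩ : ∃ S : (Fin m → Option (Piece U)) → Finset (Pt n),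
    ∀ θ, S θ = if Valid U (fun i => p (e i)) (fun g i => d g (e i)) a κ θ then
      univ.filter (fun x : Pt n => ∀ j P, θ j = some P → P.True (fill p b x)) else ∅ :=
    ⟨_, fun _ => rfl⟩
  have h2 : Gs ⊆ univ.biUnion S := by
    intro x hx
    rw [hGs, mem_filter] at hx
    obtain ⟨θ, h4, h5⟩ := exists_valid hde ha1 (hp.comp e.injective) hx.2 hκi hmm
    rw [mem_biUnion]
    refine ⟨θ, mem_univ _, ?_⟩
    rw [hS, if_pos h4, mem_filter]
    exact ⟨mem_univ _, h5⟩
  have hνQ : ν / 2 ^ (2 * κ + 1) = n / Q := by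
    rw [hν, Nat.div_div_eq_div_mul, hQ, show 4 * 2 ^ (2 * κ + 1) = 2 ^ (2 * κ + 3) by ring]
  have h3 : ∀ θ, (S θ).card * 2 ^ (n / Q) ≤ 2 ^ n * 2 ^ (n / (2 * Q)) := by
    intro θ
    rw [hS]
    by_cases hθ : Valid U (fun i => p (e i)) (fun g i => d g (e i)) a κ θ
    · rw [if_pos hθ, ← hνQ]
      exact theta_card hp b e.injective hde (by linarith) (by omega) hCR
        (fun x hx => (hC x).2 (hU x hx)) hθ
    · rw [if_neg hθ, card_empty, zero_mul]
      exact Nat.zero_le _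
  have h4 : Gs.card * 2 ^ (n / Q) ≤
      Fintype.card (Option (Piece U)) ^ m * (2 ^ n * 2 ^ (n / (2 * Q))) := by
    calc Gs.card * 2 ^ (n / Q) ≤ (∑ θ, (S θ).card) * 2 ^ (n / Q) :=
          Nat.mul_le_mul_right _ ((card_le_card h2).trans card_biUnion_le)
      _ = ∑ θ, (S θ).card * 2 ^ (n / Q) := by rw [sum_mul]
      _ ≤ ∑ _θ : Fin m → Option (Piece U), 2 ^ n * 2 ^ (n / (2 * Q)) :=
          sum_le_sum (fun θ _ => h3 θ)
      _ = _ := by
          rw [sum_const, card_univ, smul_eq_mul, Fintype.card_fun, Fintype.card_fin]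
  have h5 : C.card ≤ 2 ^ (n / D) * Gs.card := by
    have e1 : Nat.card {x : Pt n // Models F x} = C.card := by
      rw [Nat.card_eq_fintype_card, Fintype.card_subtype]
      congr 1
      ext x
      simp only [mem_filter, mem_univ, true_and]
      exact (hC x).symm
    have e2 : Nat.card {x : Pt n // U.Val (fill p b x) U.out} = Gs.card := by
      rw [Nat.card_eq_fintype_card, Fintype.card_subtype, hGs]
    rwa [e1, e2] at hl
  obtain ⟨lg, hlg⟩ : ∃ lg, lg = Nat.log 2 (Fintype.card U.G) := ⟨_, rfl⟩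
  obtain ⟨w, hw⟩ : ∃ w, w = 8 * (n / (32 * (2 * Q))) + 1 := ⟨_, rfl⟩
  rw [← hw] at hCc
  have h6 : 2 ^ n * 2 ^ (n / Q) ≤ 2 ^ n * 2 ^ (w + n / D + 2 * (lg + 1) * m + n / (2 * Q)) := by
    calc 2 ^ n * 2 ^ (n / Q) ≤ (2 ^ w * C.card) * 2 ^ (n / Q) := Nat.mul_le_mul_right _ hCc
      _ ≤ (2 ^ w * (2 ^ (n / D) * Gs.card)) * 2 ^ (n / Q) := by gcongr
      _ = 2 ^ w * 2 ^ (n / D) * (Gs.card * 2 ^ (n / Q)) := by ring
      _ ≤ 2 ^ w * 2 ^ (n / D) * (Fintype.card (Option (Piece U)) ^ m *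
          (2 ^ n * 2 ^ (n / (2 * Q)))) := Nat.mul_le_mul_left _ h4
      _ ≤ 2 ^ w * 2 ^ (n / D) * ((2 ^ (2 * (lg + 1))) ^ m * (2 ^ n * 2 ^ (n / (2 * Q)))) := by
          have := piece_card U
          rw [← hlg] at this
          gcongr
      _ = _ := by
          rw [← pow_mul, pow_add, pow_add, pow_add]
          ring
  have h7 : n / Q ≤ w + n / D + 2 * (lg + 1) * m + n / (2 * Q) :=
    (Nat.pow_le_pow_iff_right (by norm_num)).1 (Nat.le_of_mul_le_mul_left h6 (by positivity))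
  obtain ⟨t, ht⟩ : ∃ t, t = n / (2 * Q) := ⟨_, rfl⟩
  have h8 : 2 * t ≤ n / Q := by
    rw [ht, Nat.le_div_iff_mul_le (by omega)]
    have := Nat.div_mul_le_self n (2 * Q)
    calc 2 * (n / (2 * Q)) * Q = n / (2 * Q) * (2 * Q) := by ring
      _ ≤ n := this
  have h9 : 4 * (8 * (n / (32 * (2 * Q)))) ≤ t := by
    rw [ht, Nat.le_div_iff_mul_le (by omega)]
    have := Nat.mul_div_le n (32 * (2 * Q))
    calc 4 * (8 * (n / (32 * (2 * Q)))) * (2 * Q) = 32 * (2 * Q) * (n / (32 * (2 * Q))) := by ring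
      _ ≤ n := this
  have h10 : 4 * (n / D) ≤ t := by
    rw [ht, Nat.le_div_iff_mul_le (by omega)]
    have := Nat.mul_div_le n D
    calc 4 * (n / D) * (2 * Q) = 8 * Q * (n / D) := by ring
      _ ≤ D * (n / D) := Nat.mul_le_mul_right _ hQD
      _ ≤ n := this
  have h11 : n < 2 * Q * (t + 1) := by rw [ht]; exact Nat.lt_mul_div_succ n (by omega)
  have h12 : t ≤ 2 + 4 * ((lg + 1) * m) := by
    rw [← ht] at h7
    have e1 : 2 * (lg + 1) * m = 2 * ((lg + 1) * m) := by ring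
    rw [e1] at h7
    omega
  rw [← hlg]
  calc n ≤ 2 * Q * (t + 1) := h11.le
    _ ≤ 2 * Q * (3 + 4 * ((lg + 1) * m)) := Nat.mul_le_mul_left _ (by omega)
    _ ≤ 2 * Q * ((4 * m + 8) * (lg + 1)) := Nat.mul_le_mul_left _ (by nlinarith)
    _ = 2 * Q * (4 * m + 8) * (lg + 1) := by ring
    _ ≤ D * (lg + 1) := Nat.mul_le_mul_right _ (by omega)

end Pool.Agent.W896.CN
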