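import Pool.Agent.W896.CN.Core
import Pool.Agent.H538R4.SP.Sat

/-!
# Nondeterministic automata which look for a violated clause
-/

set_option autoImplicit false

open Finset

namespace Pool.Agent.W896.CN

open Pool.Agent.H554R2.Sem Pool.Agent.H554R2.Cnf Pool.Agent.W896.RK Pool.Agent.W896.HP

/-- The bits of an instance of the acceptance problem for nondeterministic automata with `m` states
over the alphabet `{false, true}` and words of length `n`: `tr q a q'` tells whether the automaton
can go from the state `q` to the state `q'` when it reads `a`, `ini q` and `fin q` tell whether `q`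
is an initial or an accepting state, and `word i` is the letter number `i` of the word. -/
inductive Bit (m n : ℕ) where
  | tr (q : Fin m) (a : Bool) (q' : Fin m)
  | ini (q : Fin m)
  | fin (q : Fin m)
  | word (i : Fin n)
deriving DecidableEq

open Classical in
/-- The bits of the automaton `A` and of the word `w`. -/
noncomputable def bitsOf {m n : ℕ} (A : NFA Bool (Fin m)) (w : Fin n → Bool) : Bit m n → Bool
  | .tr q a q' => decide (q' ∈ A.step q a)
  | .ini q => decide (q ∈ A.start)
  | .fin q => decide (q ∈ A.accept)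
  | .word i => w i

variable {m n f : ℕ}

/-- The automaton which guesses a clause and checks that it is violated. -/
def autom (cl : Fin f → Finset (Fin n × Bool)) (e : Fin f × Fin (n + 1) ↪ Fin m) :
    NFA Bool (Fin m) where
  step q a := {q' | ∃ (c : Fin f) (i : Fin n), q = e (c, i.castSucc) ∧ q' = e (c, i.succ) ∧
    (i, a) ∉ cl c}
  start := {q | ∃ c : Fin f, q = e (c, 0)}
  accept := {q | ∃ c : Fin f, q = e (c, Fin.last n)}

theorem eval_take (cl : Fin f → Finset (Fin n × Bool)) (e : Fin f × Fin (n + 1) ↪ Fin m)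
    (w : Fin n → Bool) (t : ℕ) (ht : t ≤ n) :
    (autom cl e).evalFrom (autom cl e).start ((List.ofFn w).take t) =
      {q | ∃ c : Fin f, q = e (c, ⟨t, by omega⟩) ∧ ∀ i : Fin n, i.val < t → (i, w i) ∉ cl c} := by
  induction t with
  | zero =>
    rw [List.take_zero, NFA.evalFrom_nil]
    ext q
    constructor
    · rintro ⟨c, hc⟩
      exact ⟨c, hc, fun i hi => absurd hi (by omega)⟩
    · rintro ⟨c, hc, -⟩
      exact ⟨c, hc⟩
  | succ t ih =>
    have h1 : (List.ofFn w).take (t + 1) = (List.ofFn w).take t ++ [w ⟨t, by omega⟩] := by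
      rw [List.take_succ_eq_append_getElem (by rw [List.length_ofFn]; omega)]
      simp
    rw [h1, NFA.evalFrom_append, ih (by omega), NFA.evalFrom_singleton]
    ext q
    rw [NFA.mem_stepSet]
    constructor
    · rintro ⟨q₀, ⟨c, hc, hc'⟩, c', i, h2, h3, h4⟩
      have h5 : (c, (⟨t, by omega⟩ : Fin (n + 1))) = (c', i.castSucc) := e.injective (hc.symm.trans h2)
      rw [Prod.mk.injEq] at h5
      obtain ⟨rfl, h6⟩ := h5
      have h7 : i.val = t := by
        have := congrArg Fin.val h6
        simpa using this.symm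
      refine ⟨c, ?_, ?_⟩
      · rw [h3]
        congr 2
        apply Fin.ext
        simp [h7]
      · intro j hj
        rcases Nat.lt_or_ge j.val t with h8 | h8
        · exact hc' j h8
        · have h9 : j = i := Fin.ext (by omega)
          have h10 : (⟨t, by omega⟩ : Fin n) = i := Fin.ext h7.symm
          rw [h9]
          rw [h10] at h4
          exact h4
    · rintro ⟨c, hc, hc'⟩
      refine ⟨e (c, ⟨t, by omega⟩), ⟨c, rfl, fun i hi => hc' i (by omega)⟩, c, ⟨t, by omega⟩, rfl,
        ?_, hc' ⟨t, by omega⟩ (by simp)⟩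
      rw [hc]
      rfl

theorem mem_autom (cl : Fin f → Finset (Fin n × Bool)) (e : Fin f × Fin (n + 1) ↪ Fin m)
    (w : Fin n → Bool) : List.ofFn w ∈ (autom cl e).accepts ↔ ∃ c, ∀ i, (i, w i) ∉ cl c := by
  rw [NFA.mem_accepts]
  have h1 := eval_take cl e w n le_rfl
  rw [List.take_of_length_le (by simp)] at h1
  rw [h1]
  constructor
  · rintro ⟨q, -, c, -, h2⟩
    exact ⟨c, fun i => h2 i i.isLt⟩
  · rintro ⟨c, h2⟩
    exact ⟨e (c, Fin.last n), ⟨c, rfl⟩, c, rfl, fun i _ => h2 i⟩

/-- For every formula there is an automaton which accepts its non-models. -/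
theorem exists_autom (F : Finset (Finset (Fin n × Bool))) (h : F.card * (n + 1) ≤ m) :
    ∃ A : NFA Bool (Fin m), ∀ w : Fin n → Bool, List.ofFn w ∉ A.accepts ↔ Models F w := by
  obtain ⟨e⟩ : Nonempty (Fin F.card × Fin (n + 1) ↪ Fin m) :=
    Function.Embedding.nonempty_of_card_le (by simpa using h)
  refine ⟨autom (fun c => (F.equivFin.symm c).1) e, fun w => ?_⟩
  rw [mem_autom]
  push Not
  constructor
  · intro h1 c hc
    obtain ⟨i, hi⟩ := h1 (F.equivFin ⟨c, hc⟩)
    rw [Equiv.symm_apply_apply] at hi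
    exact ⟨(i, w i), hi, rfl⟩
  · intro h1 c
    obtain ⟨⟨i, a⟩, h2, h3⟩ := h1 _ (F.equivFin.symm c).2
    simp only at h3
    exact ⟨i, by rw [h3]; exact h2⟩

theorem bitsOf_fill (A : NFA Bool (Fin m)) (w : Fin n → Bool) :
    fill (Bit.word : Fin n → Bit m n) (bitsOf A (fun _ => false)) w = bitsOf A w := by
  have hp : Function.Injective (Bit.word : Fin n → Bit m n) := fun i j h => by
    injection h
  funext v
  cases v with
  | word i => exact fill_apply hp _ w i
  | tr q a q' => exact fill_other _ _ (fun i h => by injection h)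
  | ini q => exact fill_other _ _ (fun i h => by injection h)
  | fin q => exact fill_other _ _ (fun i h => by injection h)

theorem nfa_degree (k : ℕ) : ∃ D : ℕ, 0 < D ∧ ∀ n m : ℕ, D * (n + 1) ^ 2 ≤ m →
    ∃ A : NFA Bool (Fin m), ∀ (R : Type) [Fintype R] [Nonempty R] (U : R → Circ (Bit m n)),
      (∀ r w, (U r).Val (bitsOf A w) (U r).out → List.ofFn w ∉ A.accepts) →
      (∀ w : Fin n → Bool, List.ofFn w ∉ A.accepts →
        Nat.card R ≤ 2 ^ (n / D) * Nat.card {r // (U r).Val (bitsOf A w) (U r).out}) →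
      (∀ r, ∃ d : (U r).G → Fin n → ℕ, IsDeg (U r) Bit.word d ∧ ∑ i, d (U r).out i ≤ k * n) →
      ∃ r, n ≤ D * (Nat.log 2 (Fintype.card (U r).G) + 1) := by
  classical
  obtain ⟨D, hD, h⟩ := cnf_degree k
  refine ⟨D, hD, fun n m hm => ?_⟩
  rcases Nat.lt_or_ge n D with hn | hn
  · refine ⟨⟨fun _ _ => ∅, ∅, ∅⟩, fun R _ _ U _ _ _ => ⟨Classical.arbitrary R, ?_⟩⟩
    calc n ≤ D * 1 := by omega
      _ ≤ _ := Nat.mul_le_mul_left _ (by omega)
  · obtain ⟨F, hF1, -, hF⟩ := h n hn
    obtain ⟨A, hA⟩ := exists_autom (m := m) F (by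
      refine le_trans ?_ hm
      calc F.card * (n + 1) ≤ D * n * (n + 1) := Nat.mul_le_mul_right _ hF1
        _ ≤ D * (n + 1) ^ 2 := by nlinarith)
    refine ⟨A, fun R _ _ U hU hl hd => ?_⟩
    obtain ⟨r, hr⟩ := Pool.Agent.H538R4.SP.average (fun w : Pt n => Models F w)
      (fun r (w : Pt n) => (U r).Val (bitsOf A w) (U r).out) (n / D)
      (fun w hw => hl w ((hA w).2 hw))
    refine ⟨r, ?_⟩
    obtain ⟨d, hd1, hd2⟩ := hd r
    refine hF (Bit m n) Bit.word (fun i j h => by injection h) (bitsOf A (fun _ => false)) (U r) d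
      hd1 hd2 ?_ ?_
    · intro w hw
      rw [bitsOf_fill] at hw
      exact (hA w).1 (hU r w hw)
    · simp only [bitsOf_fill]
      exact hr

end Pool.Agent.W896.CN
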