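import Pool.Agent.H554R2.Lin.CnfLin

/-!
# Families which are closed under mixing
-/

set_option autoImplicit false

open Finset

namespace Pool.Agent.W896.CN

open Pool.Agent.H554R2.Sem

variable {n : ℕ}

theorem mask_card (A : Finset (Fin n)) (s : Finset (Pt n)) : (s.image (mask A)).card ≤ 2 ^ A.card := by
  classical
  have h1 : s.image (mask A) ⊆ (univ : Finset (A → Bool)).image
      (fun g : A → Bool => fun i : Fin n => if h : i ∈ A then g ⟨i, h⟩ else false) := by
    intro x hx
    rw [mem_image] at hx ⊢
    obtain ⟨y, -, rfl⟩ := hx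
    refine ⟨fun i => y i.1, mem_univ _, ?_⟩
    funext i
    unfold mask
    split_ifs <;> rfl
  refine (card_le_card h1).trans (card_image_le.trans ?_)
  rw [card_univ, Fintype.card_fun, Fintype.card_bool, Fintype.card_coe]

theorem rect_count (C G : Finset (Pt n)) (ρ a : ℕ) (A B : Finset (Fin n)) (hAB : Disjoint A B)
    (hC : NoRect C ρ)
    (hmix : ∀ x ∈ G, ∀ y ∈ G, (∀ i, i ∉ A → i ∉ B → x i = y i) → merge A x y ∈ C)
    (hA : a ≤ A.card) (hB : a ≤ B.card) : G.card * 2 ^ a ≤ 2 ^ n * ρ := by
  classical
  obtain ⟨f, hf⟩ : ∃ f : Pt n → Pt n, f = mask (A ∪ B)ᶜ := ⟨_, rfl⟩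
  have hfib : ∀ c ∈ G.image f, (G.filter (fun x => f x = c)).card * 2 ^ a ≤
      ρ * 2 ^ (A.card + B.card) := by
    intro c _
    obtain ⟨K, hK⟩ : ∃ K, K = G.filter (fun x => f x = c) := ⟨_, rfl⟩
    rw [← hK]
    have hag : ∀ x ∈ K, ∀ y ∈ K, ∀ i, i ∉ A → i ∉ B → x i = y i := by
      intro x hx y hy i h1 h2
      rw [hK, mem_filter] at hx hy
      have h3 : f x i = f y i := by rw [hx.2, hy.2]
      rw [hf] at h3
      unfold mask at h3
      have h4 : i ∈ (A ∪ B)ᶜ := by
        rw [mem_compl, mem_union]
        rintro (h | h)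
        · exact h1 h
        · exact h2 h
      rwa [if_pos h4, if_pos h4] at h3
    have h1 : ∀ x ∈ K, ∀ y ∈ K, merge A x y ∈ C := by
      intro x hx y hy
      have hxG : x ∈ G := by rw [hK, mem_filter] at hx; exact hx.1
      have hyG : y ∈ G := by rw [hK, mem_filter] at hy; exact hy.1
      exact hmix x hxG y hyG (hag x hx y hy)
    have h2 : K.card ≤ (K.image (mask A)).card * (K.image (mask B)).card := by
      rw [← card_product]
      refine card_le_card_of_injOn (fun x => (mask A x, mask B x)) ?_ ?_
      · intro x hx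
        simp only [coe_product, Set.mem_prod, mem_coe]
        exact ⟨mem_image_of_mem _ hx, mem_image_of_mem _ hx⟩
      · intro x hx y hy hxy
        rw [Prod.mk.injEq] at hxy
        funext i
        by_cases hi : i ∈ A
        · have := congrFun hxy.1 i
          unfold mask at this
          rwa [if_pos hi, if_pos hi] at this
        · by_cases hi' : i ∈ B
          · have := congrFun hxy.2 i
            unfold mask at this
            rwa [if_pos hi', if_pos hi'] at this
          · exact hag x hx y hy i hi hi'
    have h3 := mask_card A K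
    have h4 := mask_card B K
    rcases hC A K h1 with h5 | h5
    · calc K.card * 2 ^ a ≤ ((K.image (mask A)).card * (K.image (mask B)).card) * 2 ^ a :=
            Nat.mul_le_mul_right _ h2
        _ ≤ (ρ * 2 ^ B.card) * 2 ^ A.card :=
            Nat.mul_le_mul (Nat.mul_le_mul h5.le h4) (Nat.pow_le_pow_right (by norm_num) hA)
        _ = _ := by rw [pow_add]; ring
    · have h6 : (K.image (mask B)).card ≤ (K.image (mask Aᶜ)).card := by
        have h7 : K.image (mask B) = (K.image (mask Aᶜ)).image (mask B) := by
          rw [image_image]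
          apply image_congr
          intro x _
          funext i
          unfold mask
          simp only [Function.comp]
          by_cases hi : i ∈ B
          · have : i ∈ Aᶜ := by
              rw [mem_compl]
              exact fun h => disjoint_left.1 hAB h hi
            rw [if_pos hi, if_pos hi, if_pos this]
          · rw [if_neg hi, if_neg hi]
        rw [h7]
        exact card_image_le
      calc K.card * 2 ^ a ≤ ((K.image (mask A)).card * (K.image (mask B)).card) * 2 ^ a :=
            Nat.mul_le_mul_right _ h2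
        _ ≤ (2 ^ A.card * ρ) * 2 ^ B.card :=
            Nat.mul_le_mul (Nat.mul_le_mul h3 (h6.trans h5.le))
              (Nat.pow_le_pow_right (by norm_num) hB)
        _ = _ := by rw [pow_add]; ring
  have hG : G.card = ∑ c ∈ G.image f, (G.filter (fun x => f x = c)).card :=
    card_eq_sum_card_image f G
  have him : (G.image f).card ≤ 2 ^ (n - (A.card + B.card)) := by
    have := mask_card (A ∪ B)ᶜ G
    rw [card_compl, Fintype.card_fin, card_union_of_disjoint hAB] at this
    rw [hf]
    exact this
  have hABn : A.card + B.card ≤ n := by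
    rw [← card_union_of_disjoint hAB]
    simpa using card_le_univ (A ∪ B)
  calc G.card * 2 ^ a = ∑ c ∈ G.image f, (G.filter (fun x => f x = c)).card * 2 ^ a := by
        rw [hG, sum_mul]
    _ ≤ ∑ _c ∈ G.image f, ρ * 2 ^ (A.card + B.card) := sum_le_sum hfib
    _ = (G.image f).card * (ρ * 2 ^ (A.card + B.card)) := by rw [sum_const, smul_eq_mul]
    _ ≤ 2 ^ (n - (A.card + B.card)) * (ρ * 2 ^ (A.card + B.card)) := Nat.mul_le_mul_right _ him
    _ = 2 ^ (n - (A.card + B.card) + (A.card + B.card)) * ρ := by rw [pow_add]; ring
    _ = 2 ^ n * ρ := by rw [Nat.sub_add_cancel hABn]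

end Pool.Agent.W896.CN
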