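import Pool.Agent.W896.CN.NFA
import Pool.Agent.W896.PD.Sat

/-!
# Rejection by nondeterministic automata on deterministic pushdown programs
-/

set_option autoImplicit false

open Finset

namespace Pool.Agent.W896.CN

open Pool.Agent.H554R2.Sem Pool.Agent.H554R2.Cnf Pool.Agent.W896.PD

variable {m n : ℕ}

/-- The automaton with the given bits. -/
def autOf (b : Bit m n → Bool) : NFA Bool (Fin m) where
  step q a := {q' | b (.tr q a q') = true}
  start := {q | b (.ini q) = true}
  accept := {q | b (.fin q) = true}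

theorem word_inj : Function.Injective (Bit.word : Fin n → Bit m n) := fun i j h => by injection h

theorem plug_autOf (b : Bit m n → Bool) (w : Pt n) :
    plug (Bit.word : Fin n → Bit m n) b w = bitsOf (autOf b) w := by
  classical
  funext v
  cases v with
  | word i => exact plug_apply _ word_inj _ _ i
  | tr q a q' =>
    rw [plug_other _ _ _ _ (fun i h => by injection h)]
    unfold bitsOf autOf
    simp
  | ini q =>
    rw [plug_other _ _ _ _ (fun i h => by injection h)]
    unfold bitsOf autOf
    simp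
  | fin q =>
    rw [plug_other _ _ _ _ (fun i h => by injection h)]
    unfold bitsOf autOf
    simp

theorem autOf_bitsOf (A : NFA Bool (Fin m)) (w : Fin n → Bool) : autOf (bitsOf A w) = A := by
  classical
  unfold autOf bitsOf
  cases A
  simp

theorem nfa_stack (k : ℕ) : ∃ D : ℕ, 0 < D ∧ ∀ n m : ℕ, D * (n + 1) ^ 2 ≤ m →
    ∃ A : NFA Bool (Fin m), ∀ (R : Type) [Fintype R] [Nonempty R] (U : R → PP (Bit m n) Bool),
      (∀ r w L, (U r).Comp (bitsOf A w) L true → List.ofFn w ∉ A.accepts) →
      (∀ w : Fin n → Bool, List.ofFn w ∉ A.accepts → Nat.card R ≤ 2 ^ (n / D) *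
        Nat.card {r // ∃ L, (U r).Comp (bitsOf A w) L true ∧
          ∑ i, L.count (Bit.word i) ≤ k * n}) →
      ∃ r, 2 ^ (n / D) ≤ Fintype.card (U r).State := by
  classical
  obtain ⟨D, hD, h⟩ := genPD k
  refine ⟨D, hD, fun n m hm => ?_⟩
  obtain ⟨b, hb⟩ := h (Bit m n) (fun v => List.ofFn (fun i => v (.word i)) ∉ (autOf v).accepts) n
    Bit.word word_inj (by
      intro F _ hF
      obtain ⟨A, hA⟩ := exists_autom (m := m) F (by
        refine le_trans ?_ hm
        calc F.card * (n + 1) ≤ D * n * (n + 1) := Nat.mul_le_mul_right _ hF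
          _ ≤ D * (n + 1) ^ 2 := by nlinarith)
      refine ⟨bitsOf A (fun _ => false), fun w => ?_⟩
      rw [plug_autOf, autOf_bitsOf, autOf_bitsOf]
      exact hA w) (n / D) le_rfl
  refine ⟨autOf b, fun R _ _ U hU hl => ?_⟩
  have hSol : ∀ w : Pt n, (List.ofFn (fun i => plug (Bit.word : Fin n → Bit m n) b w (.word i)) ∉
      (autOf (plug (Bit.word : Fin n → Bit m n) b w)).accepts) ↔
      List.ofFn w ∉ (autOf b).accepts := by
    intro w
    rw [plug_autOf, autOf_bitsOf]
    exact Iff.rfl
  obtain ⟨r, hr⟩ := Pool.Agent.H538R4.SP.average (fun w : Pt n => List.ofFn w ∉ (autOf b).accepts)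
    (fun r (w : Pt n) => ∃ L, (U r).Comp (bitsOf (autOf b) w) L true ∧
      ∑ i, L.count (Bit.word i) ≤ k * n) (n / D) hl
  refine ⟨r, hb (U r) ?_ ?_⟩
  · intro w L hL
    rw [hSol]
    rw [plug_autOf] at hL
    exact hU r w L hL
  · rw [Nat.card_congr (Equiv.subtypeEquivRight hSol)]
    simpa only [plug_autOf] using hr

end Pool.Agent.W896.CN
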